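import Pool.Agent.R304.UG.Stab
import Pool.Agent.H382R2.Final0

/-! Zeros in sets of universality and almost syndetic sets of indices. -/

open Complex Filter Topology Set MeasureTheory

namespace Pool.Agent.R304.UG

open ZU H370 H370.A2 H370.AS H295SI TH803TW TH803UC R304.UN
open SG (NZ ord zmult)

/-- `A` meets almost all intervals `[n, n + m)`, `m` large -/
def Asyn (A : Set ℕ) : Prop := ∀ ε : ℝ, 0 < ε → ∃ m N₀ : ℕ, ∀ N : ℕ, N₀ ≤ N →
  ({n : ℕ | 1 ≤ n ∧ n ≤ N ∧ ∀ i < m, n + i ∉ A}.ncard : ℝ) ≤ ε * N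

/-- the index of the last zero with ordinate `t` -/
lemma ord_NZ {t : ℝ} (ht : 0 < t) (h0 : riemannZeta (1 / 2 + I * t) = 0) :
    1 ≤ NZ t ∧ ord (NZ t) = t := by
  have hz : (1 / 2 + I * t : ℂ) ∈ SG.ZS t := ⟨h0, by simp, by simp; norm_num, by simpa using ht, by simp⟩
  have hm := SG.zmult_pos (s := 1 / 2 + I * t) (by simpa using ht) h0
  have key : ∀ u : ℝ, u < t → 0 ≤ u → NZ u + 1 ≤ NZ t := by
    intro u hu _
    have h3 := SG.NZ_add_le u t hu.le {(1 / 2 + I * t : ℂ)} (by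
      intro s hs
      rw [Finset.mem_singleton] at hs
      subst hs
      exact ⟨hz, by simpa using hu⟩)
    rw [Finset.sum_singleton] at h3
    omega
  have h1 : 1 ≤ NZ t := by
    have := key 0 ht le_rfl
    omega
  refine ⟨h1, le_antisymm ((SG.ord_le_iff h1 t).mpr le_rfl) ?_⟩
  by_contra hlt
  push Not at hlt
  have h2 := key _ hlt (SG.ord_pos h1).le
  have h3 := SG.le_NZ_ord h1
  omega

/-- long blocks are rare -/
lemma long_le (m N : ℕ) {h : ℝ} (hh : 0 < h) :
    (((Finset.Icc 1 N).filter fun n => h < ord (n + m) - ord n).card : ℝ) ≤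
      m * ord (N + m) / h := by
  rw [le_div_iff₀ hh]
  have h1 : (((Finset.Icc 1 N).filter fun n => h < ord (n + m) - ord n).card : ℝ) * h ≤
      ∑ n ∈ Finset.Icc 1 N, (ord (n + m) - ord n) := by
    rw [← nsmul_eq_mul, ← Finset.sum_const]
    refine (Finset.sum_le_sum fun n hn => (Finset.mem_filter.mp hn).2.le).trans ?_
    refine Finset.sum_le_sum_of_subset_of_nonneg (Finset.filter_subset _ _) fun n hn _ => ?_
    have h1 := (Finset.mem_Icc.mp hn).1
    have := SG.ord_mono h1 (Nat.le_add_right n m)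
    linarith
  refine h1.trans ?_
  have h2 : ∀ k : ℕ, ∑ n ∈ Finset.Icc 1 N, (ord (n + k) - ord n) ≤ k * ord (N + m) ∨ m < k := by
    intro k
    induction k with
    | zero => left; simp
    | succ k ih =>
      rcases ih with ih | ih
      swap
      · right; omega
      rcases Nat.lt_or_ge m (k + 1) with hk | hk
      · right; exact hk
      left
      have e1 : ∑ n ∈ Finset.Icc 1 N, (ord (n + (k + 1)) - ord n) =
          ∑ n ∈ Finset.Icc 1 N, (ord (n + k) - ord n) +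
            ∑ n ∈ Finset.Icc 1 N, (ord (n + (k + 1)) - ord (n + k)) := by
        rw [← Finset.sum_add_distrib]
        refine Finset.sum_congr rfl fun n _ => ?_
        ring
      have e2 : ∀ M : ℕ, ∑ n ∈ Finset.Icc 1 M, (ord (n + (k + 1)) - ord (n + k)) =
          ord (M + 1 + k) - ord (1 + k) := by
        intro M
        induction M with
        | zero => simp
        | succ M ihM =>
          rw [Finset.sum_Icc_succ_top (by omega), ihM]
          have e3 : M + 1 + (k + 1) = M + 1 + 1 + k := by omega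
          rw [e3]
          ring
      rw [e1, e2]
      have h3 : ord (N + 1 + k) ≤ ord (N + m) := SG.ord_mono (by omega) (by omega)
      have h4 : 0 < ord (1 + k) := SG.ord_pos (by omega)
      push_cast
      linarith
  rcases h2 m with h3 | h3
  · exact h3
  · omega

/-- upper bound for the number of zeros -/
lemma NZ_upper : ∃ C T1 : ℝ, 0 < C ∧ 3 ≤ T1 ∧ ∀ T : ℝ, T1 ≤ T →
    (NZ (2 * T) : ℝ) ≤ C * (T * Real.log T) := by
  obtain ⟨C, hC, hb⟩ := SG.NZ_nat_bound
  refine ⟨NZ 3 + 6 * C, 3, by positivity, le_refl _, fun T hT => ?_⟩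
  set m : ℕ := ⌈2 * T⌉₊ with hm
  have hm1 : 2 * T ≤ m := Nat.le_ceil _
  have hm2 : (m : ℝ) ≤ 3 * T := by
    have := (Nat.ceil_lt_add_one (by linarith : 0 ≤ 2 * T)).le
    linarith
  have hm3 : 3 ≤ m := by
    have : (3 : ℝ) ≤ m := by linarith
    exact_mod_cast this
  have h2 := hb m hm3
  have h3 : (NZ (2 * T) : ℝ) ≤ NZ (m : ℝ) := by exact_mod_cast SG.NZ_mono hm1
  have hm0 : (0 : ℝ) < m := by linarith
  have hlogT : 1 ≤ Real.log T := by
    rw [Real.le_log_iff_exp_le (by linarith)]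
    have := Real.exp_one_lt_d9
    linarith
  have h4 : Real.log m ≤ 2 * Real.log T := by
    have h5 : Real.log m ≤ Real.log (T ^ 2) := by
      apply Real.log_le_log hm0
      nlinarith
    rw [Real.log_pow] at h5
    push_cast at h5
    exact h5
  have h6 : C * m * Real.log m ≤ C * (3 * T) * (2 * Real.log T) := by
    apply mul_le_mul
    · exact mul_le_mul_of_nonneg_left hm2 hC.le
    · exact h4
    · exact Real.log_nonneg (by linarith)
    · positivity
  have h7 : (NZ 3 : ℝ) ≤ NZ 3 * (T * Real.log T) := by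
    apply le_mul_of_one_le_right (by positivity)
    nlinarith
  linarith

lemma NZ_add_NN (a b : ℝ) (ha : 1 ≤ a) (hab : a ≤ b) :
    NZ a + NN riemannZeta a b ≤ NZ b := by
  have hfin : (zset riemannZeta a b).Finite := zset_finite good_zeta a b ha
  have h4 := SG.NZ_add_le a b hab hfin.toFinset (by
    intro s hs
    rw [Set.Finite.mem_toFinset] at hs
    obtain ⟨s1, s2, s3, s4, s5⟩ := hs
    exact ⟨⟨s5, s1, s2, by linarith, s4⟩, s3⟩)
  refine le_trans (le_of_eq ?_) h4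
  unfold NN
  rw [finsum_mem_eq_finite_toFinset_sum _ hfin]
  rfl

/-- the simple zeros on the line with ordinate in `(T, 2T]` and in `S_ε` -/
def WW (T ε : ℝ) (K : Set ℂ) (f : ℂ → ℂ) : Set ℝ :=
  {t : ℝ | (T < t ∧ t ≤ 2 * T ∧ riemannZeta (1 / 2 + I * t) = 0 ∧
    deriv riemannZeta (1 / 2 + I * t) ≠ 0) ∧ t ∈ SS ε K f}

lemma WW_zset {T ε : ℝ} {K : Set ℂ} {f : ℂ → ℂ} {t : ℝ} (ht : t ∈ WW T ε K f) :
    (1 / 2 + I * t : ℂ) ∈ zset riemannZeta T (2 * T) := by
  obtain ⟨⟨h1, h2, h3, h4⟩, h5⟩ := ht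
  exact ⟨by simp, by simp; norm_num, by simpa using h1, by simpa using h2, h3⟩

lemma WW_finite (T ε : ℝ) (hT : 1 ≤ T) (K : Set ℂ) (f : ℂ → ℂ) : (WW T ε K f).Finite := by
  have hfin : (zset riemannZeta T (2 * T)).Finite := zset_finite good_zeta T (2 * T) hT
  refine (hfin.image Complex.im).subset ?_
  intro t ht
  exact ⟨_, WW_zset ht, by simp⟩

/-- the unstable ones are few -/
lemma WW_unst {T ε' : ℝ} (hT : 1 ≤ T) {K : Set ℂ} {f : ℂ → ℂ} (P : ℝ → Prop) (F : Finset ℝ)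
    (hF : ∀ t ∈ F, t ∈ WW T ε' K f ∧ P t) :
    (F.card : ℝ) ≤ NU riemannZeta T (2 * T) (fun t => t ∈ SS ε' K f ∧ P t) := by
  classical
  have h0 : ∀ Q : ℝ → Prop, (∀ t ∈ F, t ∈ WW T ε' K f ∧ Q t) →
      (F.card : ℝ) ≤ NU riemannZeta T (2 * T) Q := by
    intro Q hQ
    unfold NU
    have h1 : (F.card : ℝ) ≤ (((Zf riemannZeta T (2 * T)).filter (fun s => Q s.im)).card : ℝ) := by
      have hinj : Function.Injective fun t : ℝ => (1 / 2 + I * t : ℂ) := by
        intro x y hxy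
        have := congrArg Complex.im hxy
        simpa using this
      rw [← Finset.card_image_of_injective F hinj]
      exact_mod_cast Finset.card_le_card (by
        intro s hs
        rw [Finset.mem_image] at hs
        obtain ⟨t, ht, rfl⟩ := hs
        rw [Finset.mem_filter, mem_Zf good_zeta hT]
        exact ⟨WW_zset (hQ t ht).1, by simpa using (hQ t ht).2⟩)
    refine h1.trans ?_
    rw [Finset.card_eq_sum_ones]
    push_cast
    refine Finset.sum_le_sum fun s hs => ?_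
    rw [Finset.mem_filter] at hs
    exact_mod_cast mult_pos' hT hs.1
  exact h0 _ fun t ht => ⟨(hF t ht).1, (hF t ht).1.2, (hF t ht).2⟩

open Classical in
theorem along {K : Set ℂ} (hK : IsCompact K) (hKs : K ⊆ {z | 1 / 2 < z.re ∧ z.re < 1})
    (f : ℂ → ℂ) {ε' ε : ℝ} (hlt : ε' < ε) {κ : ℝ} (hκ : 0 < κ)
    (hW : ∃ T0 : ℝ, ∀ T : ℝ, T0 ≤ T →
      κ * (NN riemannZeta T (2 * T) : ℝ) ≤ ((WW T ε' K f).ncard : ℝ))
    {A : Set ℕ} (hA : Asyn A) :
    ∃ κ' : ℝ, 0 < κ' ∧ ∃ T0 : ℝ, ∀ T : ℝ, T0 ≤ T → κ' * (NN riemannZeta T (2 * T) : ℝ) ≤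
      ({n : ℕ | 1 ≤ n ∧ T < ord n ∧ ord n ≤ 2 * T ∧ n ∈ A ∧ ord n ∈ SS ε K f}.ncard : ℝ) := by
  obtain ⟨T1, hW⟩ := hW
  obtain ⟨h, hh0, hh1, T2, hT2, hst⟩ := stab hK hKs f hlt (η := κ / 4) (by positivity)
  obtain ⟨C, T3, hC, hT3, hup⟩ := NZ_upper
  obtain ⟨T4, hT4, hlow⟩ := NN_low good_zeta
  obtain ⟨m, N0, hm⟩ := hA (κ / (56 * C)) (by positivity)
  refine ⟨κ / (4 * (m + 1)), by positivity, ?_⟩
  have ev : ∀ᶠ T : ℝ in atTop, T1 ≤ T ∧ T2 ≤ T ∧ T3 ≤ T ∧ T4 ≤ T ∧ (7 * N0 : ℝ) ≤ T ∧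
      224 * (m + 1) / (h * κ) ≤ Real.log T ∧ 10 ≤ T ∧ (7 * m : ℝ) ≤ T ∧ 1 ≤ Real.log T :=
    (eventually_ge_atTop _).and ((eventually_ge_atTop _).and ((eventually_ge_atTop _).and
      ((eventually_ge_atTop _).and ((eventually_ge_atTop _).and
      ((Real.tendsto_log_atTop.eventually_ge_atTop _).and ((eventually_ge_atTop _).and
      ((eventually_ge_atTop _).and (Real.tendsto_log_atTop.eventually_ge_atTop _))))))))
  obtain ⟨T0, hT0⟩ := ev.exists_forall_of_atTop
  refine ⟨T0, fun T hT => ?_⟩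
  obtain ⟨e1, e2, e3, e4, e5, e6, e7, e8, e9⟩ := hT0 T hT
  have hN := hlow T e4
  have hN2 := hlow (2 * T) (by linarith)
  set NN1 : ℝ := (NN riemannZeta T (2 * T) : ℝ) with hNN1
  have hTl : T ≤ T * Real.log T := by nlinarith
  have hNN0 : 0 ≤ NN1 := Nat.cast_nonneg _
  -- sizes
  have hz1 : NZ T + NN riemannZeta T (2 * T) ≤ NZ (2 * T) := NZ_add_NN T (2 * T) (by linarith) (by linarith)
  have hz2 : NZ (2 * T) + NN riemannZeta (2 * T) (2 * (2 * T)) ≤ NZ (2 * (2 * T)) :=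
    NZ_add_NN (2 * T) (2 * (2 * T)) (by linarith) (by linarith)
  have hNb : N0 ≤ NZ (2 * T) := by
    have h1 : (N0 : ℝ) ≤ NN1 := by linarith
    have h2 : N0 ≤ NN riemannZeta T (2 * T) := by
      rw [hNN1] at h1
      exact_mod_cast h1
    omega
  have hlog2 : Real.log T ≤ Real.log (2 * T) := Real.log_le_log (by linarith) (by linarith)
  have hmN : NZ (2 * T) + m ≤ NZ (2 * (2 * T)) := by
    have h1 : (m : ℝ) ≤ NN riemannZeta (2 * T) (2 * (2 * T)) := by
      have h3 : 2 * T ≤ 2 * T * Real.log (2 * T) := by nlinarith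
      linarith
    have h2 : m ≤ NN riemannZeta (2 * T) (2 * (2 * T)) := by exact_mod_cast h1
    omega
  have hord4 : ord (NZ (2 * T) + m) ≤ 4 * T := by
    rcases Nat.eq_zero_or_pos (NZ (2 * T) + m) with h0 | h0
    · rw [h0]
      have : ord 0 = 0 := by unfold SG.ord; simp
      rw [this]; linarith
    · have := (SG.ord_le_iff h0 (2 * (2 * T))).mpr hmN
      linarith
  have hbig : 4 * (m + 1) * T / h ≤ κ / 8 * NN1 := by
    rw [div_le_iff₀ (by positivity)] at e6
    rw [div_le_iff₀ hh0]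
    have h1 : κ / 8 * (T * Real.log T / 7) * h ≤ κ / 8 * NN1 * h := by
      apply mul_le_mul_of_nonneg_right _ hh0.le
      apply mul_le_mul_of_nonneg_left _ (by positivity)
      linarith
    refine le_trans ?_ h1
    have h2 : 224 * ((m : ℝ) + 1) * T ≤ Real.log T * (h * κ) * T :=
      mul_le_mul_of_nonneg_right e6 (by linarith)
    nlinarith
  -- the sets
  set WF := (WW_finite T ε' (by linarith) K f).toFinset with hWF
  have hWFc : κ * NN1 ≤ (WF.card : ℝ) := by
    refine (hW T e1).trans (le_of_eq ?_)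
    rw [Set.ncard_eq_toFinset_card _ (WW_finite T ε' (by linarith) K f)]
  set U := WF.filter (fun t => unst h ε K f t) with hU
  have hUc : (U.card : ℝ) ≤ κ / 4 * NN1 := by
    refine (WW_unst (ε' := ε') (K := K) (f := f) (by linarith) (fun t => unst h ε K f t) U
      fun t ht => ?_).trans (hst T e2)
    rw [hU, Finset.mem_filter, hWF, Set.Finite.mem_toFinset] at ht
    exact ht
  set G := WF.filter (fun t => ¬ unst h ε K f t) with hG
  have hGc : κ * NN1 - κ / 4 * NN1 ≤ (G.card : ℝ) := by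
    have h1 := Finset.card_filter_add_card_filter_not (s := WF) (fun t => unst h ε K f t)
    have h2 : (U.card : ℝ) + (G.card : ℝ) = (WF.card : ℝ) := by exact_mod_cast h1
    linarith
  have hGp : ∀ t ∈ G, 0 < t ∧ T < t ∧ t ≤ 2 * T ∧ riemannZeta (1 / 2 + I * t) = 0 ∧
      ¬ unst h ε K f t := by
    intro t ht
    rw [hG, Finset.mem_filter, hWF, Set.Finite.mem_toFinset] at ht
    obtain ⟨⟨⟨a1, a2, a3, a4⟩, a5⟩, a6⟩ := ht
    exact ⟨by linarith, a1, a2, a3, a6⟩
  -- the indices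
  set J := G.image NZ with hJ
  have hJc : J.card = G.card := by
    rw [hJ]
    refine Finset.card_image_of_injOn fun t ht t' ht' htt => ?_
    have h1 := (ord_NZ (hGp t ht).1 (hGp t ht).2.2.2.1).2
    have h2 := (ord_NZ (hGp t' ht').1 (hGp t' ht').2.2.2.1).2
    rw [← h1, ← h2, htt]
  have hJp : ∀ n ∈ J, 1 ≤ n ∧ T < ord n ∧ n ≤ NZ (2 * T) ∧ ¬ unst h ε K f (ord n) := by
    intro n hn
    rw [hJ, Finset.mem_image] at hn
    obtain ⟨t, ht, rfl⟩ := hn
    obtain ⟨a0, a1, a2, a3, a4⟩ := hGp t ht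
    obtain ⟨b1, b2⟩ := ord_NZ a0 a3
    rw [b2]
    exact ⟨b1, a1, SG.NZ_mono a2, a4⟩
  set N := NZ (2 * T) with hNdef
  set B1 := (Finset.Icc 1 N).filter (fun n => ∀ i < m, n + i ∉ A) with hB1
  set B2 := (Finset.Icc 1 N).filter (fun n => h < ord (n + m) - ord n) with hB2
  set B3 := Finset.Ioc (N - m) N with hB3
  have hB1c : (B1.card : ℝ) ≤ κ / 8 * NN1 := by
    have h1 := hm N hNb
    have h2 : {n : ℕ | 1 ≤ n ∧ n ≤ N ∧ ∀ i < m, n + i ∉ A} = (B1 : Set ℕ) := by
      ext n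
      rw [hB1, Finset.coe_filter]
      simp only [Set.mem_ofPred_eq, Finset.mem_Icc]
      tauto
    rw [h2, Set.ncard_coe_finset] at h1
    refine h1.trans ?_
    have h3 := hup T e3
    have h4 : (N : ℝ) ≤ C * (7 * NN1) := h3.trans (mul_le_mul_of_nonneg_left hN hC.le)
    calc κ / (56 * C) * (N : ℝ) ≤ κ / (56 * C) * (C * (7 * NN1)) :=
          mul_le_mul_of_nonneg_left h4 (by positivity)
      _ = κ / 8 * NN1 := by field_simp; ring
  have hB2c : (B2.card : ℝ) ≤ κ / 8 * NN1 := by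
    refine (long_le m N hh0).trans (le_trans ?_ hbig)
    rw [div_le_div_iff_of_pos_right hh0]
    have hm0 : (0 : ℝ) ≤ m := Nat.cast_nonneg m
    have h1 : (m : ℝ) * ord (N + m) ≤ m * (4 * T) := mul_le_mul_of_nonneg_left hord4 hm0
    nlinarith
  have hB3c : (B3.card : ℝ) ≤ κ / 8 * NN1 := by
    have h1 : B3.card ≤ m := by
      rw [hB3, Nat.card_Ioc]; omega
    have h2 : (B3.card : ℝ) ≤ m := by exact_mod_cast h1
    refine h2.trans (le_trans ?_ hbig)
    rw [le_div_iff₀ hh0]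
    have hm0 : (0 : ℝ) ≤ m := Nat.cast_nonneg m
    nlinarith [mul_le_mul_of_nonneg_left hh1 hm0]
  set J' := J \ (B1 ∪ B2 ∪ B3) with hJ'
  have hJ'c : κ / 4 * NN1 ≤ (J'.card : ℝ) := by
    have h1 := Finset.le_card_sdiff (B1 ∪ B2 ∪ B3) J
    have h2 : (B1 ∪ B2 ∪ B3).card ≤ B1.card + B2.card + B3.card :=
      (Finset.card_union_le _ _).trans (Nat.add_le_add_right (Finset.card_union_le _ _) _)
    have h3 : (J.card : ℝ) ≤ J'.card + (B1.card + B2.card + B3.card) := by
      have : J.card ≤ J'.card + (B1.card + B2.card + B3.card) := by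
        rw [hJ']; omega
      exact_mod_cast this
    rw [hJc] at h3
    linarith
  -- the target
  have hTfin : {n : ℕ | 1 ≤ n ∧ T < ord n ∧ ord n ≤ 2 * T ∧ n ∈ A ∧ ord n ∈ SS ε K f}.Finite := by
    refine (Set.finite_Icc 1 N).subset ?_
    rintro n ⟨a1, a2, a3, -, -⟩
    exact ⟨a1, (SG.ord_le_iff a1 _).mp a3⟩
  rw [Set.ncard_eq_toFinset_card _ hTfin]
  set Y := hTfin.toFinset with hY
  have hJ'p : ∀ n ∈ J', ∃ i, i < m ∧ n + i ∈ Y := by
    intro n hn
    rw [hJ', Finset.mem_sdiff, Finset.mem_union, Finset.mem_union] at hn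
    obtain ⟨hn1, hn2⟩ := hn
    push Not at hn2
    obtain ⟨⟨hn2, hn3⟩, hn4⟩ := hn2
    obtain ⟨a1, a2, a3, a4⟩ := hJp n hn1
    have c1 : ∃ i < m, n + i ∈ A := by
      by_contra hcon
      push Not at hcon
      exact hn2 (by rw [hB1, Finset.mem_filter, Finset.mem_Icc]; exact ⟨⟨a1, a3⟩, hcon⟩)
    have c2 : ord (n + m) - ord n ≤ h := by
      by_contra hcon
      push Not at hcon
      exact hn3 (by rw [hB2, Finset.mem_filter, Finset.mem_Icc]; exact ⟨⟨a1, a3⟩, hcon⟩)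
    have c3 : n + m ≤ N := by
      by_contra hcon
      push Not at hcon
      exact hn4 (by rw [hB3, Finset.mem_Ioc]; exact ⟨by omega, a3⟩)
    obtain ⟨i, hi, hiA⟩ := c1
    refine ⟨i, hi, ?_⟩
    rw [hY, Set.Finite.mem_toFinset]
    have d1 : ord n ≤ ord (n + i) := SG.ord_mono a1 (by omega)
    have d2 : ord (n + i) ≤ ord (n + m) := SG.ord_mono (by omega) (by omega)
    refine ⟨by omega, by linarith, (SG.ord_le_iff (by omega) _).mpr (by omega), hiA, ?_⟩
    by_contra hcon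
    exact a4 ⟨ord (n + i), by rw [abs_le]; constructor <;> linarith, hcon⟩
  choose! φ hφ1 hφ2 using hJ'p
  have hcard : J'.card ≤ (m + 1) * Y.card := by
    refine Finset.card_le_mul_card_image_of_maps_to (f := fun n => n + φ n) (fun n hn => hφ2 n hn)
      (m + 1) fun b _ => ?_
    have hsub : (J'.filter fun n => n + φ n = b) ⊆ Finset.Ioc (b - m) b := by
      intro n hn
      rw [Finset.mem_filter] at hn
      have h1 := hφ1 n hn.1
      have h2 : 1 ≤ n := (hJp n (Finset.mem_sdiff.mp hn.1).1).1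
      rw [Finset.mem_Ioc]
      omega
    refine (Finset.card_le_card hsub).trans ?_
    rw [Nat.card_Ioc]
    omega
  have hcard' : (J'.card : ℝ) ≤ ((m : ℝ) + 1) * (Y.card : ℝ) := by exact_mod_cast hcard
  have hm1 : (0 : ℝ) < m + 1 := by positivity
  have h9 : κ / (4 * (m + 1)) * NN1 = κ / 4 * NN1 / (m + 1) := by field_simp
  rw [h9, div_le_iff₀ hm1]
  linarith

end Pool.Agent.R304.UG
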