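import Pool.Agent.R304.UG.Synd

/-! Positive lower density. -/

open Complex Filter Topology Set MeasureTheory

namespace Pool.Agent.R304.UG

open ZU H370 H370.A2 H370.AS H295SI TH803TW TH803UC R304.UN
open SG (NZ ord zmult)

lemma limsup_freq (E : Set ℝ) (h : 0 < limsup (fun X : ℝ => volume (E ∩ Icc 0 X) / ENNReal.ofReal X)
    atTop) : ∃ D : ℝ, 0 < D ∧ ∃ᶠ X : ℝ in atTop, ENNReal.ofReal (D * X) ≤ volume (E ∩ Icc 0 X) := by
  obtain ⟨b, hb0, hb⟩ := exists_between h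
  have hbt : b ≠ ⊤ := ne_top_of_lt hb
  refine ⟨b.toReal, ENNReal.toReal_pos hb0.ne' hbt, ?_⟩
  have h2 := frequently_lt_of_lt_limsup (by isBoundedDefault) hb
  refine (h2.and_eventually (eventually_gt_atTop 0)).mono ?_
  rintro X ⟨h3, hX⟩
  rw [ENNReal.ofReal_mul ENNReal.toReal_nonneg, ENNReal.ofReal_toReal hbt]
  exact (ENNReal.le_div_iff_mul_le (Or.inl (ENNReal.ofReal_pos.2 hX).ne')
    (Or.inl ENNReal.ofReal_ne_top)).1 h3.le

theorem posdens {K : Set ℂ} (hK : IsCompact K) (hKs : ∀ z ∈ K, 1 / 2 < z.re ∧ z.re < 1)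
    (f : ℂ → ℂ) {ε : ℝ} (hε : 0 < ε)
    (hpos : 0 < limsup (fun X : ℝ => volume (SS (ε / 4) K f ∩ Icc 0 X) / ENNReal.ofReal X) atTop)
    {A : Set ℕ} (hA : Asyn A) :
    ∃ κ : ℝ, 0 < κ ∧ ∃ N₀ : ℕ, ∀ N : ℕ, N₀ ≤ N →
      κ * N ≤ ({n : ℕ | 1 ≤ n ∧ n ≤ N ∧ n ∈ A ∧ ord n ∈ SS ε K f}.ncard : ℝ) := by
  have hcc2 := cc_lt
  norm_num at hcc2
  obtain ⟨D, hD, hfr⟩ := limsup_freq _ hpos
  have hκ0 : 0 < (2 - cc 1) * D / 2 := by
    have : 0 < 2 - cc 1 := by linarith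
    positivity
  obtain ⟨T0, hT0, hcore⟩ := core (ε := ε / 2) hK hKs f (by linarith) hfr hκ0
  obtain ⟨κ', hκ', T1, hal⟩ := along (ε' := ε / 2) (ε := ε) hK hKs f (by linarith) hκ0
    ⟨T0, fun T hT => by
      refine le_trans (le_of_eq ?_) (hcore T hT).1
      ring⟩ hA
  obtain ⟨C, T3, hC, hT3, hup⟩ := NZ_upper
  obtain ⟨T4, hT4, hlow⟩ := NN_low good_zeta
  refine ⟨κ' / (28 * C), by positivity, ?_⟩
  have ev := SG.ord_tendsto.eventually_ge_atTop (4 * (|T1| + |T3| + |T4| + 10))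
  obtain ⟨N0, hN0⟩ := (ev.and (eventually_ge_atTop 1)).exists_forall_of_atTop
  refine ⟨N0, fun N hN => ?_⟩
  obtain ⟨h1, hN1⟩ := hN0 N hN
  obtain ⟨T, hT⟩ : ∃ T : ℝ, T = ord N / 4 := ⟨_, rfl⟩
  have a1 := le_abs_self T1
  have a3 := le_abs_self T3
  have a4 := le_abs_self T4
  have b1 := abs_nonneg T1
  have b3 := abs_nonneg T3
  have b4 := abs_nonneg T4
  have hT10 : 10 ≤ T := by linarith
  have h2 := hal T (by linarith)
  have h3 := hlow T (by linarith)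
  have h4 := hup (2 * T) (by linarith)
  have h5 : (N : ℝ) ≤ NZ (2 * (2 * T)) := by
    have : N ≤ NZ (2 * (2 * T)) := by
      have e : 2 * (2 * T) = ord N := by rw [hT]; ring
      rw [e]
      exact SG.le_NZ_ord hN1
    exact_mod_cast this
  have hlogT : 1 ≤ Real.log T := by
    rw [Real.le_log_iff_exp_le (by linarith)]
    have := Real.exp_one_lt_d9
    linarith
  have h6 : Real.log (2 * T) ≤ 2 * Real.log T := by
    have h5 : Real.log (2 * T) ≤ Real.log (T ^ 2) := by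
      apply Real.log_le_log (by linarith)
      nlinarith
    rw [Real.log_pow] at h5
    push_cast at h5
    exact h5
  have h7 : (N : ℝ) ≤ 28 * C * (NN riemannZeta T (2 * T) : ℝ) := by
    have h8 : C * (2 * T * Real.log (2 * T)) ≤ C * (2 * T * (2 * Real.log T)) := by
      apply mul_le_mul_of_nonneg_left _ hC.le
      apply mul_le_mul_of_nonneg_left h6 (by linarith)
    have h9 : C * (2 * T * (2 * Real.log T)) = 4 * C * (T * Real.log T) := by ring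
    have h10 : 4 * C * (T * Real.log T) ≤ 4 * C * (7 * (NN riemannZeta T (2 * T) : ℝ)) :=
      mul_le_mul_of_nonneg_left h3 (by positivity)
    linarith
  have hfin : {n : ℕ | 1 ≤ n ∧ n ≤ N ∧ n ∈ A ∧ ord n ∈ SS ε K f}.Finite :=
    (Set.finite_Icc 1 N).subset fun n hn => ⟨hn.1, hn.2.1⟩
  have h11 : {n : ℕ | 1 ≤ n ∧ T < ord n ∧ ord n ≤ 2 * T ∧ n ∈ A ∧ ord n ∈ SS ε K f}.ncard ≤
      {n : ℕ | 1 ≤ n ∧ n ≤ N ∧ n ∈ A ∧ ord n ∈ SS ε K f}.ncard := by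
    refine Set.ncard_le_ncard ?_ hfin
    rintro n ⟨c1, c2, c3, c4, c5⟩
    refine ⟨c1, ?_, c4, c5⟩
    by_contra hcon
    push Not at hcon
    have := SG.ord_mono hN1 hcon.le
    linarith
  have h12 : ({n : ℕ | 1 ≤ n ∧ T < ord n ∧ ord n ≤ 2 * T ∧ n ∈ A ∧ ord n ∈ SS ε K f}.ncard : ℝ) ≤
      ({n : ℕ | 1 ≤ n ∧ n ≤ N ∧ n ∈ A ∧ ord n ∈ SS ε K f}.ncard : ℝ) := by exact_mod_cast h11
  refine le_trans ?_ (h2.trans h12)
  have h13 : κ' / (28 * C) * N ≤ κ' / (28 * C) * (28 * C * (NN riemannZeta T (2 * T) : ℝ)) :=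
    mul_le_mul_of_nonneg_left h7 (by positivity)
  refine h13.trans (le_of_eq ?_)
  field_simp

end Pool.Agent.R304.UG
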