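import Pool.Agent.R304.UN.Core

/-! Stability of the sets of universality under small shifts. -/

open Complex Filter Topology Set MeasureTheory

namespace Pool.Agent.R304.UG

open ZU H370 H370.A2 H370.AS H295SI TH803TW TH803UC R304.UN

lemma torusPt_uc {k : ℕ} (α : Fin k → ℝ) : UniformContinuous fun t : ℝ => torusPt α t := by
  rw [uniformContinuous_pi]
  intro j
  have hc : Continuous (((QuotientAddGroup.mk' (AddSubgroup.zmultiples (1 : ℝ))).comp
      (AddMonoidHom.mulLeft (α j))) : ℝ →+ UnitAddCircle) := by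
    refine (AddCircle.continuous_mk' (1 : ℝ)).comp ?_
    exact continuous_const.mul continuous_id
  exact uniformContinuous_addMonoidHom_of_continuous hc

lemma torus_thick {k : ℕ} (α : Fin k → ℝ) {V W : Set (UnitAddTorus (Fin k))} (hW : IsOpen W)
    (hV : closure V ⊆ W) : ∃ h : ℝ, 0 < h ∧ h ≤ 1 ∧ ∀ t t' : ℝ, |t' - t| ≤ h →
      torusPt α t ∈ V → torusPt α t' ∈ W := by
  obtain ⟨δ, hδ, hsub⟩ := (isClosed_closure (s := V)).isCompact.exists_thickening_subset_open hW hV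
  obtain ⟨h, hh, huc⟩ := Metric.uniformContinuous_iff.mp (torusPt_uc α) δ hδ
  refine ⟨min (h / 2) 1, lt_min (by positivity) one_pos, min_le_right _ _, fun t t' htt ht => ?_⟩
  apply hsub
  rw [Metric.mem_thickening_iff]
  refine ⟨torusPt α t, subset_closure ht, huc ?_⟩
  rw [Real.dist_eq]
  have : min (h / 2) 1 ≤ h / 2 := min_le_left _ _
  linarith

/-- there are points near `t` outside `S_ε` -/
def unst (h ε : ℝ) (K : Set ℂ) (f : ℂ → ℂ) (t : ℝ) : Prop := ∃ t' : ℝ, |t' - t| ≤ h ∧ t' ∉ SS ε K f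

lemma NU_mono' (A B : ℝ) (P Q : ℝ → Prop) (h : ∀ s ∈ Zf riemannZeta A B, P s.im → Q s.im) :
    NU riemannZeta A B P ≤ NU riemannZeta A B Q := by
  classical
  unfold NU
  apply Finset.sum_le_sum_of_subset_of_nonneg
  · intro s hs
    rw [Finset.mem_filter] at hs ⊢
    exact ⟨hs.1, h s hs.1 hs.2⟩
  · intro s _ _
    positivity

lemma NU_false (A B : ℝ) : NU riemannZeta A B (fun _ => False) = 0 := by
  unfold NU
  simp

/-- few zeros in `S_ε'` have points near them outside `S_ε` -/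
theorem stab {K : Set ℂ} (hK : IsCompact K) (hKs : K ⊆ {z | 1 / 2 < z.re ∧ z.re < 1})
    (f : ℂ → ℂ) {ε' ε : ℝ} (hlt : ε' < ε) {η : ℝ} (hη : 0 < η) :
    ∃ h : ℝ, 0 < h ∧ h ≤ 1 ∧ ∃ T0 : ℝ, 10 ≤ T0 ∧ ∀ T : ℝ, T0 ≤ T →
      NU riemannZeta T (2 * T) (fun t => t ∈ SS ε' K f ∧ unst h ε K f t) ≤
        η * (NN riemannZeta T (2 * T) : ℝ) := by
  by_cases hne : (SS ε' K f).Nonempty
  swap
  · rw [Set.not_nonempty_iff_eq_empty] at hne
    refine ⟨1, one_pos, le_rfl, 10, le_rfl, fun T hT => ?_⟩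
    refine (NU_mono' T (2 * T) _ (fun _ => False) fun s _ hs => ?_).trans ?_
    · have h1 := hs.1
      rw [hne] at h1
      exact h1
    · rw [NU_false]
      positivity
  obtain ⟨t0, ht0⟩ := hne
  obtain ⟨Cf, hCf0, hCf⟩ := bounded_of_mem hK hKs ht0
  obtain ⟨a, b, B, h1, h2, h3, h4, hsub⟩ := exists_rectW K hK hKs
  obtain ⟨R, hR⟩ : ∃ R, R = Cf + |ε| + |ε'| + 1 := ⟨_, rfl⟩
  have hR0 : 0 < R := by
    have := abs_nonneg ε
    have := abs_nonneg ε'
    linarith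
  obtain ⟨θ, hθ⟩ : ∃ θ, θ = min (1 / 2) ((ε - ε') / (12 * R)) := ⟨_, rfl⟩
  have hεε : 0 < ε - ε' := by linarith
  have hθ0 : 0 < θ := by rw [hθ]; positivity
  have hθ1 : θ ≤ 1 / 2 := by rw [hθ]; exact min_le_left _ _
  have hθR : θ * (2 * R) ≤ (ε - ε') / 6 := by
    have : θ ≤ (ε - ε') / (12 * R) := by rw [hθ]; exact min_le_right _ _
    calc θ * (2 * R) ≤ (ε - ε') / (12 * R) * (2 * R) := by gcongr
      _ = (ε - ε') / 6 := by field_simp; ring
  obtain ⟨M, hM⟩ := bad_zeros a b (B + 1) θ η h1 h2 h3 (by linarith) hθ0 hη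
  obtain ⟨T0, hT0, hbz⟩ := hM M le_rfl
  have hθθ : ε' + (ε - ε') / 3 < ε' + 2 * (ε - ε') / 3 := by linarith
  obtain ⟨h, hh0, hh1, hth⟩ := torus_thick (al M) (VV_open (by linarith) M hsub f
    (ε' + 2 * (ε - ε') / 3)) (VV_closure (by linarith) M hsub f hθθ)
  refine ⟨h, hh0, hh1, T0, hT0, fun T hT => le_trans ?_ (hbz T hT)⟩
  refine NU_mono' T (2 * T) _ _ fun s _ hs => ?_
  obtain ⟨hs1, t', ht', hs2⟩ := hs
  by_contra hcon
  have hb : s.im ∉ bad M a b B θ := fun hb => hcon (bad_near hb (by simp))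
  have hb' : t' ∉ bad M a b B θ := fun hb => hcon (bad_near hb (by
    rw [abs_sub_comm]; linarith))
  have g1 := (close_iff hlt hsub hCf hR hθ1 hθ0.le hθR hb).1 hs1
  have g2 := hth s.im t' ht' g1
  exact hs2 ((close_iff hlt hsub hCf hR hθ1 hθ0.le hθR hb').2 g2)

end Pool.Agent.R304.UG
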